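import Pool.Agent.H25.PN.RotQ

/-!
# Linear isometries and the collision operator (MODULE HC_Iso)

The same as H25/PN/RotB.lean and H25/PN/RotQ.lean (there for involutive isometries `Rot`), for every linear bijection `A` which preserves `nsq`.
`int_iso`: `|det A| = 1`: the ball `{nsq ≤ 1}` (bounded, positive volume) is mapped onto itself (`Measure.addHaar_image_linearMap`), or `MeasurePreserving` from `LinearIsometryEquiv.measurePreserving` on `EuclideanSpace` and `WithLp`; then as `mp_rot`.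
`surf_preserving` (H25/Kin/Cap.lean) for the sphere. `norm_iso`: copy of `norm_rot`.
-/

set_option autoImplicit false

open MeasureTheory Set Filter Topology Pool.Agent.H25.Kin Pool.Agent.H48.PL

namespace Pool.Agent.H15.HC

variable {d : ℕ}

theorem len_iso {A : Vec d ≃ₗ[ℝ] Vec d} (h : ∀ z, nsq (A z) = nsq z) (z : Vec d) : len (A z) = len z := by
  unfold len
  rw [h]

theorem norm_iso {A : Vec d ≃ₗ[ℝ] Vec d} (h : ∀ z, nsq (A z) = nsq z) (v : Vec d) :
    1 + ‖v‖ ≤ (d + 1 : ℝ) * (1 + ‖A v‖) := by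
  have h1 : ‖v‖ ≤ len v := norm_le_len v
  rw [← len_iso h v] at h1
  have hn := norm_nonneg (A v)
  have hd0 : (0 : ℝ) ≤ d := Nat.cast_nonneg d
  have h2 : len (A v) ≤ (d + 1 : ℝ) * ‖A v‖ := by
    unfold len
    rw [Real.sqrt_le_left (by positivity)]
    refine (sq_le (A v)).trans ?_
    have h3 : (d : ℝ) ≤ (d + 1 : ℝ) ^ 2 := by nlinarith
    calc (d : ℝ) * ‖A v‖ ^ 2 ≤ (d + 1 : ℝ) ^ 2 * ‖A v‖ ^ 2 :=
          mul_le_mul_of_nonneg_right h3 (sq_nonneg _)
      _ = ((d + 1 : ℝ) * ‖A v‖) ^ 2 := by ring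
  nlinarith

private lemma HCIso_dot {A : Vec d ≃ₗ[ℝ] Vec d} (h : ∀ z, nsq (A z) = nsq z) (x y : Vec d) :
    dot (A x) (A y) = dot x y := by
  have h1 := h (x + y)
  rw [map_add, nsq_add, nsq_add, h, h] at h1
  linarith

private lemma HCIso_cont (A : Vec d ≃ₗ[ℝ] Vec d) : Continuous A :=
  (A : Vec d →ₗ[ℝ] Vec d).continuous_of_finiteDimensional

private lemma HCIso_emb (A : Vec d ≃ₗ[ℝ] Vec d) : MeasurableEmbedding A := by
  let E : Vec d ≃ₜ Vec d :=
    { toFun := A
      invFun := A.symm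
      left_inv := A.left_inv
      right_inv := A.right_inv
      continuous_toFun := HCIso_cont A
      continuous_invFun := HCIso_cont A.symm }
  exact E.measurableEmbedding

private lemma HCIso_det {A : Vec d ≃ₗ[ℝ] Vec d} (h : ∀ z, nsq (A z) = nsq z) :
    |LinearMap.det (A : Vec d →ₗ[ℝ] Vec d)| = 1 := by
  have himg : (A : Vec d →ₗ[ℝ] Vec d) '' {z : Vec d | nsq z < 1} = {z : Vec d | nsq z < 1} := by
    ext z
    constructor
    · rintro ⟨y, hy, rfl⟩
      show nsq (A y) < 1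
      rw [h]
      exact hy
    · intro hz
      refine ⟨A.symm z, ?_, A.apply_symm_apply z⟩
      show nsq (A.symm z) < 1
      rw [← h (A.symm z), A.apply_symm_apply]
      exact hz
  have h1 := Measure.addHaar_image_linearMap (volume : Measure (Vec d)) (A : Vec d →ₗ[ℝ] Vec d)
    {z : Vec d | nsq z < 1}
  rw [himg] at h1
  have hopen : IsOpen {z : Vec d | nsq z < 1} := isOpen_lt continuous_sq continuous_const
  have hne : ({z : Vec d | nsq z < 1}).Nonempty := ⟨0, by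
    show nsq (0 : Vec d) < 1
    have h0 : nsq (0 : Vec d) = 0 := by simp [nsq]
    rw [h0]
    norm_num⟩
  have hpos : (volume : Measure (Vec d)) {z : Vec d | nsq z < 1} ≠ 0 :=
    (hopen.measure_pos volume hne).ne'
  have hfin : (volume : Measure (Vec d)) {z : Vec d | nsq z < 1} ≠ ⊤ := by
    refine ne_top_of_le_ne_top (measure_closedBall_lt_top (x := (0 : Vec d)) (r := 1)).ne
      (measure_mono fun z hz => ?_)
    rw [mem_closedBall_zero_iff]
    refine (norm_le_len z).trans ?_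
    unfold len
    rw [Real.sqrt_le_left (by norm_num), one_pow]
    exact (show nsq z < 1 from hz).le
  have h2 : ENNReal.ofReal |LinearMap.det (A : Vec d →ₗ[ℝ] Vec d)| = 1 := by
    have h3 : ENNReal.ofReal |LinearMap.det (A : Vec d →ₗ[ℝ] Vec d)| *
        (volume : Measure (Vec d)) {z : Vec d | nsq z < 1} =
        1 * (volume : Measure (Vec d)) {z : Vec d | nsq z < 1} := by
      rw [one_mul]
      exact h1.symm
    exact (ENNReal.mul_left_inj hpos hfin).1 h3
  have h4 := congrArg ENNReal.toReal h2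
  rwa [ENNReal.toReal_ofReal (abs_nonneg _), ENNReal.toReal_one] at h4

private lemma HCIso_mp {A : Vec d ≃ₗ[ℝ] Vec d} (h : ∀ z, nsq (A z) = nsq z) :
    MeasurePreserving A (volume : Measure (Vec d)) volume := by
  have hdet := HCIso_det h
  have hdet0 : LinearMap.det (A : Vec d →ₗ[ℝ] Vec d) ≠ 0 := fun h' => by
    rw [h', abs_zero] at hdet; exact zero_ne_one hdet
  refine ⟨(HCIso_cont A).measurable, ?_⟩
  have h1 := Measure.map_linearMap_addHaar_eq_smul_addHaar (volume : Measure (Vec d)) hdet0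
  rw [abs_inv, hdet, inv_one, ENNReal.ofReal_one, one_smul] at h1
  exact h1

private lemma HCIso_mps {A : Vec d ≃ₗ[ℝ] Vec d} (h : ∀ z, nsq (A z) = nsq z) (hd : 1 ≤ d) :
    MeasurePreserving A (surf d) (surf d) :=
  surf_preserving hd (A := (A : Vec d →ₗ[ℝ] Vec d)) h (HCIso_det h)

theorem int_iso {A : Vec d ≃ₗ[ℝ] Vec d} (h : ∀ z, nsq (A z) = nsq z) (F : Vec d → ℝ) :
    ∫ v, F (A v) = ∫ v, F v :=
  (HCIso_mp h).integral_comp (HCIso_emb A) F

private lemma HCIso_ints {A : Vec d ≃ₗ[ℝ] Vec d} (h : ∀ z, nsq (A z) = nsq z) (hd : 1 ≤ d)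
    (F : Vec d → ℝ) : ∫ σ, F (A σ) ∂(surf d) = ∫ σ, F σ ∂(surf d) :=
  (HCIso_mps h hd).integral_comp (HCIso_emb A) F

private lemma HCIso_post {A : Vec d ≃ₗ[ℝ] Vec d} (h : ∀ z, nsq (A z) = nsq z) (v w σ : Vec d) :
    post (A v) (A w) (A σ) = A (post v w σ) := by
  unfold post
  rw [← map_sub, len_iso h]
  simp only [map_add, map_smul]

private lemma HCIso_post' {A : Vec d ≃ₗ[ℝ] Vec d} (h : ∀ z, nsq (A z) = nsq z) (v w σ : Vec d) :
    post' (A v) (A w) (A σ) = A (post' v w σ) := by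
  unfold post'
  rw [← map_sub, len_iso h]
  simp only [map_sub, map_add, map_smul]

private lemma HCIso_cosTh {A : Vec d ≃ₗ[ℝ] Vec d} (h : ∀ z, nsq (A z) = nsq z) (v w σ : Vec d) :
    cosTh (A v) (A w) (A σ) = cosTh v w σ := by
  unfold cosTh
  rw [← map_sub, len_iso h, HCIso_dot h]

private lemma HCIso_kerB {A : Vec d ≃ₗ[ℝ] Vec d} (h : ∀ z, nsq (A z) = nsq z) (γ : ℝ) (b : ℝ → ℝ)
    (ε : ℝ) (v w σ : Vec d) : kerB γ b ε (A v) (A w) (A σ) = kerB γ b ε v w σ := by
  unfold kerB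
  rw [← map_sub, len_iso h, HCIso_cosTh h]

private lemma HCIso_boltzCut {A : Vec d ≃ₗ[ℝ] Vec d} (h : ∀ z, nsq (A z) = nsq z) (hd : 1 ≤ d)
    (γ : ℝ) (b : ℝ → ℝ) (ε : ℝ) (g : Vec d → ℝ) (v : Vec d) :
    boltzCut γ b ε (fun w => g (A w)) v = boltzCut γ b ε g (A v) := by
  unfold boltzCut
  rw [← int_iso h (fun w : Vec d => ∫ σ : Vec d,
    kerB γ b ε (A v) w σ * (g (post' (A v) w σ) * g (post (A v) w σ) - g w * g (A v)) ∂(surf d))]
  congr 1
  funext w
  rw [← HCIso_ints h hd (fun σ : Vec d =>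
    kerB γ b ε (A v) (A w) σ *
      (g (post' (A v) (A w) σ) * g (post (A v) (A w) σ) - g (A w) * g (A v)))]
  congr 1
  funext σ
  rw [HCIso_kerB h, HCIso_post h, HCIso_post' h]

theorem boltzQ_iso {A : Vec d ≃ₗ[ℝ] Vec d} (h : ∀ z, nsq (A z) = nsq z) (hd : 1 ≤ d) (γ : ℝ) (b : ℝ → ℝ)
    (g : Vec d → ℝ) (v : Vec d) : boltzQ γ b (fun w => g (A w)) v = boltzQ γ b g (A v) := by
  unfold boltzQ
  congr 1
  funext ε
  exact HCIso_boltzCut h hd γ b ε g v

end Pool.Agent.H15.HC
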