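import Pool.Agent.H25.PN.Sol
import Pool.Agent.H15.HC.Iso

/-!
# A plane solution composed with an isometry of the velocities (MODULE HC_Lin)

`g(t,x,v) = f(t,x,A v)` for a plane solution `f` (`PlaneSym ν`) and a linear isometry `A` with `ν · A v = ν · v`. Copy of H25/PN/SolA, SolB, SolC with the continuous linear map `L (t,x,v) = (t,x,A v)` (`derivs_cmp`, `fderiv_cmp` of H25/PN/CmpL):
`transport g t x v = fderiv (unc f) (t,x,A v) (1, v, 0) = fderiv (unc f) (t,x,A v) (1, A v, 0)` since `fderiv (unc f) (t,x,A v) (0, v - A v, 0) = 0` by `fderiv_perp` (H25/PN/SolC; `dot ν (v - A v) = 0`), and `boltzQ_iso`. Decay: `norm_iso`.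
-/

set_option autoImplicit false

open MeasureTheory Set Filter Topology Pool.Agent.H25.Kin Pool.Agent.H48.PL Pool.Agent.H25.PN

namespace Pool.Agent.H15.HC

variable {d : ℕ} {T γ : ℝ} {b : ℝ → ℝ} {f : ℝ → Vec d → Vec d → ℝ}

private noncomputable def HCLin_L (A : Vec d ≃ₗ[ℝ] Vec d) :
    (ℝ × Vec d × Vec d) →L[ℝ] (ℝ × Vec d × Vec d) :=
  LinearMap.toContinuousLinearMap
    { toFun := fun q => (q.1, q.2.1, A q.2.2)
      map_add' := fun p q => by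
        refine Prod.ext rfl (Prod.ext rfl ?_)
        exact map_add A p.2.2 q.2.2
      map_smul' := fun c p => by
        refine Prod.ext rfl (Prod.ext rfl ?_)
        exact map_smul A c p.2.2 }

private lemma HCLin_apply (A : Vec d ≃ₗ[ℝ] Vec d) (t : ℝ) (x v : Vec d) :
    HCLin_L A (t, x, v) = (t, x, A v) := rfl

private lemma HCLin_unc (A : Vec d ≃ₗ[ℝ] Vec d) (f : ℝ → Vec d → Vec d → ℝ) :
    unc (fun t x v => f t x (A v)) = fun q => unc f (HCLin_L A q) := rfl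

private lemma HCLin_pow {A : Vec d ≃ₗ[ℝ] Vec d} (h : ∀ z, nsq (A z) = nsq z) (v : Vec d) (N : ℕ) :
    (1 + ‖v‖) ^ N ≤ (d + 1 : ℝ) ^ N * (1 + ‖A v‖) ^ N := by
  rw [← mul_pow]
  exact pow_le_pow_left₀ (by positivity) (norm_iso h v) N

private lemma HCLin_decay (hf : IsBoltzmannSol γ b T f)
    {A : Vec d ≃ₗ[ℝ] Vec d} (h : ∀ z, nsq (A z) = nsq z) : ∀ T₁ < T, ∀ N : ℕ, ∃ C,
    ∀ t ∈ Icc 0 T₁, ∀ x v, (1 + ‖v‖) ^ N * f t x (A v) ≤ C := by
  intro T₁ hT₁ N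
  obtain ⟨C, hC⟩ := hf.decay T₁ hT₁ N
  refine ⟨((d : ℝ) + 1) ^ N * C, fun t ht x v => ?_⟩
  have ht2 : t ∈ Ico 0 T := ⟨ht.1, ht.2.trans_lt hT₁⟩
  have h0 : 0 ≤ f t x (A v) := hf.nonneg _ ht2 _ _
  have h2 := HCLin_pow h v N
  have h3 : (1 + ‖A v‖) ^ N * f t x (A v) ≤ C := hC _ ht _ _
  calc (1 + ‖v‖) ^ N * f t x (A v)
      ≤ ((d : ℝ) + 1) ^ N * (1 + ‖A v‖) ^ N * f t x (A v) := mul_le_mul_of_nonneg_right h2 h0
    _ = ((d : ℝ) + 1) ^ N * ((1 + ‖A v‖) ^ N * f t x (A v)) := by ring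
    _ ≤ _ := mul_le_mul_of_nonneg_left h3 (by positivity)

private lemma HCLin_decay12 (hf : IsBoltzmannSol γ b T f)
    {A : Vec d ≃ₗ[ℝ] Vec d} (h : ∀ z, nsq (A z) = nsq z) : ∀ T₀ > 0, ∀ T₁ < T, ∀ N : ℕ, ∃ C,
    ∀ t ∈ Icc T₀ T₁, ∀ x v, (1 + ‖v‖) ^ N * derivs12 (fun t x v => f t x (A v)) t x v ≤ C := by
  intro T₀ hT₀ T₁ hT₁ N
  obtain ⟨C, hC⟩ := hf.decay12 T₀ hT₀ T₁ hT₁ N
  refine ⟨((d + 1 : ℝ) ^ N * (‖HCLin_L A‖ + ‖HCLin_L A‖ ^ 2)) * C, fun t ht x v => ?_⟩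
  have h2 := hC t ht x (A v)
  have hU : IsOpen (Ioo (0 : ℝ) T ×ˢ (univ : Set (Vec d × Vec d))) := isOpen_Ioo.prod isOpen_univ
  have hp : HCLin_L A (t, x, v) ∈ Ioo (0 : ℝ) T ×ˢ (univ : Set (Vec d × Vec d)) :=
    ⟨⟨lt_of_lt_of_le hT₀ ht.1, lt_of_le_of_lt ht.2 hT₁⟩, mem_univ _⟩
  have h3 : derivs12 (fun t x v => f t x (A v)) t x v ≤
      (‖HCLin_L A‖ + ‖HCLin_L A‖ ^ 2) * derivs12 f t x (A v) := by
    unfold derivs12
    rw [HCLin_unc]
    have := derivs_cmp (HCLin_L A) hU hf.isC2 hp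
    rwa [HCLin_apply] at this
  have h4 := HCLin_pow h v N
  have h5 : 0 ≤ derivs12 (fun t x v => f t x (A v)) t x v := by
    unfold derivs12 derivs
    positivity
  calc (1 + ‖v‖) ^ N * derivs12 (fun t x v => f t x (A v)) t x v
      ≤ ((d + 1 : ℝ) ^ N * (1 + ‖A v‖) ^ N) *
        ((‖HCLin_L A‖ + ‖HCLin_L A‖ ^ 2) * derivs12 f t x (A v)) :=
        mul_le_mul h4 h3 h5 (by positivity)
    _ = ((d + 1 : ℝ) ^ N * (‖HCLin_L A‖ + ‖HCLin_L A‖ ^ 2)) *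
        ((1 + ‖A v‖) ^ N * derivs12 f t x (A v)) := by ring
    _ ≤ ((d + 1 : ℝ) ^ N * (‖HCLin_L A‖ + ‖HCLin_L A‖ ^ 2)) * C :=
        mul_le_mul_of_nonneg_left h2 (by positivity)

private lemma HCLin_transport {ν : Vec d} (hf : IsBoltzmannSol γ b T f) (hP : PlaneSym ν T f)
    {A : Vec d ≃ₗ[ℝ] Vec d} (hν : ∀ z, dot ν (A z) = dot ν z) {t : ℝ} (ht : t ∈ Ioo 0 T)
    (x v : Vec d) :
    transport (fun t x v => f t x (A v)) t x v = transport f t x (A v) := by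
  unfold transport
  rw [HCLin_unc, fderiv_cmp (HCLin_L A) (U := Ioo 0 T ×ˢ univ) (isOpen_Ioo.prod isOpen_univ) hf.isC2
    (by rw [HCLin_apply]; exact ⟨ht, trivial⟩), HCLin_apply, HCLin_apply]
  have hsplit : (((1 : ℝ), v, A 0) : ℝ × Vec d × Vec d) =
      ((1 : ℝ), A v, (0 : Vec d)) + (0, v - A v, 0) := by
    refine Prod.ext ?_ (Prod.ext ?_ ?_)
    · simp
    · simp
    · simp
  have hperp : dot ν (v - A v) = 0 := by
    rw [dot_sub, hν, sub_self]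
  rw [hsplit, map_add, fderiv_perp hf hP ht _ _ hperp, add_zero]

theorem boltz_lin (hd : 1 ≤ d) {ν : Vec d} (hf : IsBoltzmannSol γ b T f) (hP : PlaneSym ν T f)
    {A : Vec d ≃ₗ[ℝ] Vec d} (h : ∀ z, nsq (A z) = nsq z) (hν : ∀ z, dot ν (A z) = dot ν z) :
    IsBoltzmannSol γ b T (fun t x v => f t x (A v)) := by
  refine
    { nonneg := fun t ht x v => hf.nonneg t ht x (A v)
      periodic := fun t ht x v i => hf.periodic t ht x (A v) i
      isCont := ?_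
      isC2 := ?_
      decay := HCLin_decay hf h
      decay12 := HCLin_decay12 hf h
      solves := ?_ }
  · unfold ContOn
    rw [HCLin_unc]
    refine hf.isCont.comp (HCLin_L A).continuous.continuousOn ?_
    rintro ⟨t, x, v⟩ hq
    exact ⟨hq.1, mem_univ _⟩
  · unfold C2On
    rw [HCLin_unc]
    refine hf.isC2.comp (HCLin_L A).contDiff.contDiffOn ?_
    rintro ⟨t, x, v⟩ hq
    exact ⟨hq.1, mem_univ _⟩
  · intro t ht x v
    rw [HCLin_transport hf hP hν ht x v, hf.solves t ht x (A v)]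
    exact (boltzQ_iso h hd γ b (f t x) v).symm

end Pool.Agent.H15.HC
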