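import Pool.Agent.H25.Kin.Trans
import Pool.Agent.H25.Kin.BDefs

/-!
# Translation of a solution in space (MODULE HC_ShX)

`unc` of the translated function is `unc f ∘ (· + (0, y, 0))`; see `sol_shift` (H48/PI/Shift.lean: the same for a translation in time; there `fderiv_comp_add_right` is used for the derivatives).
-/

set_option autoImplicit false

open MeasureTheory Set Filter Topology Pool.Agent.H25.Kin

namespace Pool.Agent.H15.HC

variable {d : ℕ} {T : ℝ} {Q f : ℝ → Vec d → Vec d → ℝ}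

private lemma ShX_unc (f : ℝ → Vec d → Vec d → ℝ) (y : Vec d) :
    unc (fun t x => f t (x + y)) = fun p => unc f (p + ((0 : ℝ), y, (0 : Vec d))) := by
  funext p
  simp [unc]

private lemma ShX_fderiv (f : ℝ → Vec d → Vec d → ℝ) (y : Vec d) :
    fderiv ℝ (unc (fun t x => f t (x + y))) =
      fun p => fderiv ℝ (unc f) (p + ((0 : ℝ), y, (0 : Vec d))) := by
  funext p
  rw [ShX_unc, fderiv_comp_add_right]

private lemma ShX_derivs12 (f : ℝ → Vec d → Vec d → ℝ) (y : Vec d) (t : ℝ) (x v : Vec d) :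
    derivs12 (fun t x => f t (x + y)) t x v = derivs12 f t (x + y) v := by
  unfold derivs12 derivs
  rw [ShX_fderiv]
  rw [fderiv_comp_add_right]
  simp

theorem sol_shX (hf : IsClassicalSol T Q f) (y : Vec d) :
    IsClassicalSol T (fun t x => Q t (x + y)) (fun t x => f t (x + y)) where
  nonneg t ht x v := hf.nonneg t ht (x + y) v
  periodic t ht x v i := by
    have h := hf.periodic t ht (x + y) v i
    rw [← h]
    congr 1
    abel
  isCont := by
    unfold ContOn
    rw [ShX_unc]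
    refine hf.isCont.comp (Continuous.continuousOn (by fun_prop)) ?_
    rintro ⟨t, x, v⟩ ⟨ht, -⟩
    refine ⟨?_, trivial⟩
    have e : (t, x, v).1 + ((0 : ℝ), y, (0 : Vec d)).1 = t := by simp
    show (t, x, v).1 + ((0 : ℝ), y, (0 : Vec d)).1 ∈ Ico 0 T
    rw [e]
    exact ht
  isC2 := by
    unfold C2On
    rw [ShX_unc]
    refine hf.isC2.comp (ContDiff.contDiffOn (by fun_prop)) ?_
    rintro ⟨t, x, v⟩ ⟨ht, -⟩
    refine ⟨?_, trivial⟩
    have e : (t, x, v).1 + ((0 : ℝ), y, (0 : Vec d)).1 = t := by simp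
    show (t, x, v).1 + ((0 : ℝ), y, (0 : Vec d)).1 ∈ Ioo 0 T
    rw [e]
    exact ht
  decay T₁ hT₁ N := by
    obtain ⟨C, hC⟩ := hf.decay T₁ hT₁ N
    exact ⟨C, fun t ht x v => hC t ht (x + y) v⟩
  decay12 T₀ hT₀ T₁ hT₁ N := by
    obtain ⟨C, hC⟩ := hf.decay12 T₀ hT₀ T₁ hT₁ N
    refine ⟨C, fun t ht x v => ?_⟩
    rw [ShX_derivs12]
    exact hC t ht (x + y) v
  solves t ht x v := by
    have h := hf.solves t ht (x + y) v
    unfold transport at h ⊢
    rw [ShX_fderiv]
    simpa using h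

theorem boltz_shX {γ : ℝ} {b : ℝ → ℝ} (hf : IsBoltzmannSol γ b T f) (y : Vec d) :
    IsBoltzmannSol γ b T (fun t x => f t (x + y)) := sol_shX hf y

end Pool.Agent.H15.HC
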