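import Pool.Agent.H15.HC.Sup
import Pool.Agent.H15.HC.Lin
import Pool.Agent.H15.HC.ShX

/-!
# Helical data (MODULE HC_Fin)

`hel_of`: for `y` let `A` be the isometry of the hypothesis; `f t (x + y) v` and `f t x (A⁻¹ v)` are plane solutions (`boltz_shX`, `boltz_lin`) with the same initial value, which is `HolData` without vacuum; `uniq_hol` (H48/PR/UniG). `hel_UB` as `hom_UB` (H48/CV/HomB.lean).
-/

set_option autoImplicit false

open MeasureTheory Set Filter Topology Pool.Agent.H25.Kin Pool.Agent.H48.PL Pool.Agent.H48.PD Pool.Agent.H25.PN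
open Pool.Agent.H82.BK Pool.Agent.H82.CM Pool.Agent.H48.PR Pool.Agent.H93.CM Pool.Agent.H48.NE Pool.Agent.H48.CV
open Pool.Agent.H15.AV (Slice sol_slice)

namespace Pool.Agent.H15.HC

variable {d : ℕ} {s γ : ℝ} {b : ℝ → ℝ}

/-- every translation is compensated by an isometry of the velocities which fixes `ν` -/
def Hel (ν : Vec d) (F : Vec d → Vec d → ℝ) : Prop :=
  ∀ y : Vec d, ∃ A : Vec d ≃ₗ[ℝ] Vec d, (∀ z, nsq (A z) = nsq z) ∧ (∀ z, dot ν (A z) = dot ν z) ∧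
    ∀ x v, F (x + y) (A v) = F x v

theorem Hel.rot {ν : Vec d} {F : Vec d → Vec d → ℝ} (h : Hel ν F) : RotS F := by
  intro x y
  obtain ⟨A, h1, -, h3⟩ := h (y - x)
  refine ⟨A, h1, fun v => ?_⟩
  have := h3 x v
  rwa [add_sub_cancel] at this

theorem hel_of (hd : 2 ≤ d) (hs : 0 < s) (h0 : 0 ≤ γ) (hs1 : 2 * s < 1) (h2 : γ + 2 * s ≤ 2)
    (hb : IsKernel d s b) {ν : Vec d} {F₀ : Vec d → Vec d → ℝ} (hF : PlaneData s ν F₀)
    (hel : Hel ν F₀) {T : ℝ} {f : ℝ → Vec d → Vec d → ℝ} (hf : IsBoltzmannSol γ b T f)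
    (hf0 : f 0 = F₀) : ∀ t ∈ Ico 0 T, RotS (f t) := by
  obtain ⟨C, Ca, cb, HL⟩ := exists_hypL hd hs (by linarith) (by linarith) h2 hb
  have hP : PlaneSym ν T f := sym_of_hol HL h0 hs1 hf (by rw [hf0]; exact hF)
  intro t ht x y
  obtain ⟨A, h1, h3, h4⟩ := hel (y - x)
  refine ⟨A, h1, fun v => ?_⟩
  have k1 : ∀ z, nsq (A.symm z) = nsq z := fun z => by
    rw [← h1 (A.symm z), LinearEquiv.apply_symm_apply]
  have k3 : ∀ z, dot ν (A.symm z) = dot ν z := fun z => by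
    rw [← h3 (A.symm z), LinearEquiv.apply_symm_apply]
  have hg := boltz_shX hf (y - x)
  have hh := boltz_lin (by omega) hf hP k1 k3
  obtain ⟨-, hpos, α, hα, hα1, Ah, kh, hhol⟩ := hF
  have key := uniq_hol HL h0 hs1 hh hg (fun x' => by
      simp only [hf0]
      exact hpos _) hα hα1 (by
      refine ⟨Ah, kh, fun x' y' v' w' => ?_⟩
      simp only [hf0]
      have h5 := hhol (x' + (y - x)) (y' + (y - x)) v' w'
      rwa [add_sub_add_right_eq_sub] at h5) (fun x' v' => by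
      simp only [hf0]
      rw [← h4 x' (A.symm v'), LinearEquiv.apply_symm_apply])
  have h6 := key t ⟨ht.1, by rw [min_self]; exact ht.2⟩ x (A v)
  simp only [LinearEquiv.symm_apply_apply] at h6
  rw [h6, add_sub_cancel]

theorem hel_UB (hd : 2 ≤ d) (hs : 0 < s) (h0 : 0 ≤ γ) (h1 : γ < 1) (hs1 : 2 * s < 1)
    (hb : IsKernel d s b) {ν : Vec d} {F₀ : Vec d → Vec d → ℝ} (hF : PlaneData s ν F₀)
    (hel : Hel ν F₀) (hS : Slice F₀) : UB d γ b (PlaneSym ν) F₀ := by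
  have key : ∀ N : ℕ, ∃ A : ℝ, ∀ (T : ℝ) (f : ℝ → Vec d → Vec d → ℝ), IsBoltzmannSol γ b T f →
      (∀ t ∈ Ico 0 T, RotS (f t)) → f 0 = F₀ →
      ∀ t ∈ Ico 0 T, ∀ x v, f t x v * (1 + nsq v) ^ (N + d + 3) ≤ A := fun N =>
    hel_sup hd hs h0 h1 hs1 hb hS hF.2.1 (by
      push_cast
      have h3 : (0 : ℝ) ≤ N := Nat.cast_nonneg _
      have h4 : (0 : ℝ) ≤ d := Nat.cast_nonneg _
      linarith)
  choose A hA using key
  refine ⟨fun N => 2 ^ N * A N, ∫ v, F₀ 0 v, hF.2.1 0, fun T f hf hf0 => ?_⟩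
  have hh := hel_of hd hs h0 hs1 (by linarith) hb hF hel hf hf0
  obtain ⟨C, Ca, cb, HL⟩ := exists_hypL hd hs (by linarith) (by linarith) (by linarith) hb
  have hI := boltz_HasInvariants HL.H hf
  have hP : PlaneSym ν T f := sym_of_hol HL h0 hs1 hf (by rw [hf0]; exact hF)
  refine ⟨hP, fun t ht x => ⟨fun N v => ?_, ?_⟩⟩
  · have h3 := hA N T f hf hh hf0 t ht x v
    have h4 : 0 ≤ f t x v := hf.nonneg t ht x v
    have hn := norm_nonneg v
    have h5 : 1 + ‖v‖ ≤ 2 * (1 + nsq v) := by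
      have := norm_sq_le_sq v
      nlinarith [sq_nonneg (‖v‖ - 1)]
    have h6 : 1 ≤ 1 + nsq v := by linarith [sq_nonneg' v]
    calc (1 + ‖v‖) ^ N * f t x v ≤ (2 * (1 + nsq v)) ^ N * f t x v :=
          mul_le_mul_of_nonneg_right (pow_le_pow_left₀ (by linarith) h5 N) h4
      _ = 2 ^ N * (f t x v * (1 + nsq v) ^ N) := by rw [mul_pow]; ring
      _ ≤ 2 ^ N * (f t x v * (1 + nsq v) ^ (N + d + 3)) := by
          refine mul_le_mul_of_nonneg_left (mul_le_mul_of_nonneg_left ?_ h4) (by positivity)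
          exact pow_le_pow_right₀ h6 (by omega)
      _ ≤ 2 ^ N * A N := mul_le_mul_of_nonneg_left h3 (by positivity)
  · rw [← hel_mass hS hel.rot 0, ← hel_mass (sol_slice hf ht) (hh t ht) x,
      Pool.Agent.H15.AV.mass_const (Q := boltzQ γ b) hf hI ht, hf0]

end Pool.Agent.H15.HC
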