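import Pool.Agent.H48.CV.HomB
import Pool.Agent.H15.HC.Iso

/-!
# Sup bound for solutions whose slices are rotations of each other (MODULE HC_Sup)

Copy of `hom_sup` (H48/CV/HomB.lean, with its private lemmas): the slice argument `HomB_slice` is applied to the function `fun _ => f t x` (independent of the space variable).
-/

set_option autoImplicit false

open MeasureTheory Set Filter Topology Pool.Agent.H25.Kin Pool.Agent.H48.PL Pool.Agent.H48.PD Pool.Agent.H25.PN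
open Pool.Agent.H82.BK Pool.Agent.H82.CM Pool.Agent.H48.PR Pool.Agent.H93.CM Pool.Agent.H48.NE
open Pool.Agent.H15.AV (Slice sol_slice)

namespace Pool.Agent.H15.HC

variable {d : ℕ} {s γ : ℝ} {b : ℝ → ℝ}

section Aux

open Pool.Agent.H48.PI Pool.Agent.H48.PW

/-- integral over the phase space of a function of the velocity -/
private lemma HcS_nu (φ : Vec d → ℝ) : ∫ q, φ q.1 ∂(nu d) = ∫ v, φ v := by
  unfold nu
  rw [integral_fun_fst]
  simp [Measure.real, muD_univ]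

/-- the same on a subset -/
private lemma HcS_nuS (φ : Vec d → ℝ) {S : Set (Vec d)} (hS : MeasurableSet S) :
    ∫ q in {q : Vec d × Vec d | q.1 ∈ S}, φ q.1 ∂(nu d) = ∫ v in S, φ v := by
  have hS' : MeasurableSet {q : Vec d × Vec d | q.1 ∈ S} := measurable_fst hS
  rw [← integral_indicator hS', ← integral_indicator hS, ← HcS_nu]
  refine integral_congr_ae (Eventually.of_forall fun q => ?_)
  by_cases h : q.1 ∈ S
  · have h' : q ∈ {q : Vec d × Vec d | q.1 ∈ S} := h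
    simp only
    rw [indicator_of_mem h', indicator_of_mem h]
  · have h' : q ∉ {q : Vec d × Vec d | q.1 ∈ S} := h
    simp only
    rw [indicator_of_notMem h', indicator_of_notMem h]

/-- the bounded part of a slice -/
private lemma HcS_g1 {g : Vec d → ℝ} (hg : Nice g) (hg0 : ∀ u, 0 ≤ g u) {R C₀ : ℝ} (hR : 1 ≤ R) (hC : 0 < C₀) :
    Measurable (fun u => chi R u * bet C₀ (g u)) ∧ (∀ u, 0 ≤ chi R u * bet C₀ (g u)) ∧
      (∀ u, chi R u * bet C₀ (g u) ≤ g u) ∧ (∀ u, chi R u * bet C₀ (g u) ≤ C₀) ∧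
      ∀ u, 2 * R < jb u → chi R u * bet C₀ (g u) = 0 := by
  have hb0 : ∀ u, 0 ≤ bet C₀ (g u) := fun u => bet_nonneg hC (hg0 u)
  have gb' : ∀ u, chi R u * bet C₀ (g u) ≤ bet C₀ (g u) := fun u => by
    calc chi R u * bet C₀ (g u) ≤ 1 * bet C₀ (g u) :=
          mul_le_mul_of_nonneg_right (chi_le_one _ _) (hb0 u)
      _ = bet C₀ (g u) := one_mul _
  refine ⟨?_, fun u => mul_nonneg (chi_nonneg _ _) (hb0 u), fun u => (gb' u).trans (bet_le hC (hg0 u)),
    fun u => (gb' u).trans (bet_le_C hC (hg0 u)), fun u hu => ?_⟩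
  · have m1 : Measurable (bet C₀) := by
      unfold bet
      exact (measurable_const.mul measurable_id).div (measurable_const.add measurable_id)
    exact (chi_cont _).measurable.mul (m1.comp hg.cont.measurable)
  · rw [chi_eq_zero hR hu.le, zero_mul]

private lemma HcS_chi {R R' : ℝ} (hR : 0 < R) (h : R ≤ R') (w : Vec d) : chi R w ≤ chi R' w := by
  unfold chi
  have h1 : jb w / R' ≤ jb w / R := div_le_div_of_nonneg_left (jb_pos w).le hR h
  exact max_le_max le_rfl (min_le_min le_rfl (by linarith))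

private lemma HcS_bet {C C' : ℝ} (hC : 0 < C) (h : C ≤ C') {r : ℝ} (hr : 0 ≤ r) :
    bet C r ≤ bet C' r := by
  have hC' : 0 < C' := hC.trans_le h
  unfold bet
  rw [div_le_div_iff₀ (by positivity) (by positivity)]
  nlinarith [mul_le_mul_of_nonneg_right h (mul_nonneg hr hr)]

/-- the relative velocity is large away from a slab -/
private lemma HcS_len {R δ : ℝ} (hR : 1 ≤ R) (hδ : 0 < δ) {e : Fin d} {v w : Vec d} (h1 : jb w ≤ 2 * R)
    (h2 : δ ≤ |w e - v e|) : min (1 / 2) (δ / (4 * R)) * jb v ≤ len (v - w) := by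
  have hj := jb_pos v
  rcases le_or_gt (jb v) (4 * R) with h | h
  · have h3 : |w e - v e| ≤ len (v - w) := by
      rw [abs_sub_comm]
      exact abs_coord_le (v - w) e
    calc min (1 / 2) (δ / (4 * R)) * jb v ≤ δ / (4 * R) * (4 * R) :=
          mul_le_mul (min_le_right _ _) h hj.le (by positivity)
      _ = δ := by field_simp
      _ ≤ len (v - w) := h2.trans h3
  · have h3 := (abs_le.1 (jb_lip v w)).2
    calc min (1 / 2) (δ / (4 * R)) * jb v ≤ 1 / 2 * jb v :=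
          mul_le_mul_of_nonneg_right (min_le_left _ _) hj.le
      _ ≤ len (v - w) := by linarith

/-- `|v-w|^r ≤ 2 ⟨v⟩^r ⟨w⟩`, `0 ≤ r ≤ 1` -/
private lemma HcS_up {r : ℝ} (h0 : 0 ≤ r) (h1 : r ≤ 1) (v w : Vec d) :
    len (v - w) ^ r ≤ 2 * jb v ^ r * jb w := by
  have jv := one_le_jb v
  have jw := one_le_jb w
  have h2 : len (v - w) ≤ jb v * (2 * jb w) := by
    have := len_sub_le v w
    have := len_le_jb v
    have := len_le_jb w
    nlinarith
  calc len (v - w) ^ r ≤ (jb v * (2 * jb w)) ^ r := Real.rpow_le_rpow (len_nonneg _) h2 h0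
    _ = jb v ^ r * (2 * jb w) ^ r := Real.mul_rpow (by linarith) (by linarith)
    _ ≤ jb v ^ r * (2 * jb w) ^ (1 : ℝ) := by
        refine mul_le_mul_of_nonneg_left ?_ (Real.rpow_nonneg (by linarith) _)
        exact Real.rpow_le_rpow_of_exponent_le (by linarith) h1
    _ = 2 * jb v ^ r * jb w := by rw [Real.rpow_one]; ring

/-- lower bound of the loss term of the bounded part -/
private lemma HcS_low {r : ℝ} (h0 : 0 ≤ r) (h1 : r ≤ 2) (hd : 2 ≤ d) {g : Vec d → ℝ} (hg : Nice g)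
    (hg0 : ∀ u, 0 ≤ g u) {R₂ C₂ R C₀ δ m : ℝ} (hR₂ : 1 ≤ R₂) (hC₂ : 0 < C₂) (hR : R₂ ≤ R) (hC : C₂ ≤ C₀)
    (hδ : 0 < δ) (e : Fin d) (v : Vec d) (hm : m / 2 ≤ ∫ w, chi R₂ w * bet C₂ (g w))
    (hs : ∫ w in {w : Vec d | |w e - v e| < δ}, chi R₂ w * bet C₂ (g w) ≤ m / 4) :
    min (1 / 2) (δ / (4 * R₂)) ^ r * jb v ^ r * (m / 4) ≤
      ∫ w, len (v - w) ^ r * (chi R w * bet C₀ (g w)) := by
  obtain ⟨m2, p2, l2, c2, z2⟩ := HcS_g1 hg hg0 hR₂ hC₂
  obtain ⟨m1, p1, l1, c1, z1⟩ := HcS_g1 hg hg0 (hR₂.trans hR) (hC₂.trans_le hC)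
  obtain ⟨c, hc⟩ : ∃ c : ℝ, c = min (1 / 2) (δ / (4 * R₂)) := ⟨_, rfl⟩
  have hc0 : 0 < c := by
    rw [hc]
    have : 0 < R₂ := by linarith
    exact lt_min (by norm_num) (by positivity)
  have hS : MeasurableSet {w : Vec d | |w e - v e| < δ} := by
    have h3 : Continuous fun w : Vec d => |w e - v e| := by fun_prop
    have h4 : Measurable fun w : Vec d => |w e - v e| := h3.measurable
    exact h4 measurableSet_Iio
  have hgi : Integrable g := hg.rd.integrable hg.cont.aestronglyMeasurable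
  have i2 : Integrable fun w => chi R₂ w * bet C₂ (g w) := by
    refine hgi.mono' m2.aestronglyMeasurable (Eventually.of_forall fun w => ?_)
    rw [Real.norm_of_nonneg (p2 w)]
    exact l2 w
  have hlm : Measurable fun w : Vec d => len (v - w) ^ r :=
    (continuous_len.comp (continuous_const.sub continuous_id)).measurable.pow_const _
  have i1 : Integrable fun w => len (v - w) ^ r * (chi R w * bet C₀ (g w)) := by
    have h3 := freq_integrable hd (by linarith : -2 < r) h1 hg v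
    refine h3.mono' (hlm.mul m1).aestronglyMeasurable (Eventually.of_forall fun w => ?_)
    have h4 : 0 ≤ len (v - w) ^ r := Real.rpow_nonneg (len_nonneg _) _
    rw [Real.norm_of_nonneg (mul_nonneg h4 (p1 w)), mul_comm]
    exact mul_le_mul_of_nonneg_right (l1 w) h4
  have h5 := integral_add_compl hS i2
  have h6 : m / 4 ≤ ∫ w in {w : Vec d | |w e - v e| < δ}ᶜ, chi R₂ w * bet C₂ (g w) := by linarith
  rw [← hc, ← Real.mul_rpow hc0.le (jb_pos v).le]
  have hK : 0 ≤ (c * jb v) ^ r := Real.rpow_nonneg (mul_nonneg hc0.le (jb_pos v).le) _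
  calc (c * jb v) ^ r * (m / 4)
      ≤ (c * jb v) ^ r * ∫ w in {w : Vec d | |w e - v e| < δ}ᶜ, chi R₂ w * bet C₂ (g w) :=
        mul_le_mul_of_nonneg_left h6 hK
    _ = ∫ w in {w : Vec d | |w e - v e| < δ}ᶜ, (c * jb v) ^ r * (chi R₂ w * bet C₂ (g w)) :=
        (integral_const_mul _ _).symm
    _ ≤ ∫ w in {w : Vec d | |w e - v e| < δ}ᶜ, len (v - w) ^ r * (chi R w * bet C₀ (g w)) := by
        refine setIntegral_mono_on (i2.integrableOn.const_mul _) i1.integrableOn hS.compl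
          fun w hw => ?_
        have hw' : δ ≤ |w e - v e| := not_lt.1 hw
        rcases le_or_gt (jb w) (2 * R₂) with h7 | h7
        · have h8 := HcS_len hR₂ hδ h7 hw'
          rw [← hc] at h8
          have h9 : chi R₂ w * bet C₂ (g w) ≤ chi R w * bet C₀ (g w) :=
            mul_le_mul (HcS_chi (by linarith) hR w) (HcS_bet hC₂ hC (hg0 w))
              (bet_nonneg hC₂ (hg0 w)) (chi_nonneg _ _)
          exact mul_le_mul (Real.rpow_le_rpow (mul_nonneg hc0.le (jb_pos v).le) h8 h0) h9 (p2 w)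
            (Real.rpow_nonneg (len_nonneg _) _)
        · rw [z2 w h7, mul_zero]
          exact mul_nonneg (Real.rpow_nonneg (len_nonneg _) _) (p1 w)
    _ ≤ ∫ w, len (v - w) ^ r * (chi R w * bet C₀ (g w)) :=
        setIntegral_le_integral i1 (Eventually.of_forall fun w =>
          mul_nonneg (Real.rpow_nonneg (len_nonneg _) _) (p1 w))

/-- upper bound of the gain from the unbounded part -/
private lemma HcS_gain {a : ℝ} (ha : -1 ≤ a) (ha0 : a < 0) {g : Vec d → ℝ} (hg : Nice g)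
    (hg0 : ∀ u, 0 ≤ g u) {R C₀ ε : ℝ} (hR : 1 ≤ R) (hC : 0 < C₀) (e : Fin d) (v : Vec d)
    (hs : ∫ w, (g w - chi R w * bet C₀ (g w)) * jb w ≤ ε) :
    ∫ w, (v e - w e) * PhS e a v w * (g w - chi R w * bet C₀ (g w)) ≤ 2 * jb v ^ (1 + a) * ε := by
  obtain ⟨m1, p1, l1, c1, z1⟩ := HcS_g1 hg hg0 hR hC
  have jv : 0 ≤ 2 * jb v ^ (1 + a) := mul_nonneg zero_le_two (Real.rpow_nonneg (jb_pos v).le _)
  have hPG : PG fun v : Vec d => jb v := by
    have h := PG_jb (d := d) (r := 1)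
    simpa using h
  have i0 : Integrable fun w => g w * jb w :=
    (hg.rd.mul_PG hPG).integrable (hg.cont.mul jb_cont).aestronglyMeasurable
  have i1 : Integrable fun w => (g w - chi R w * bet C₀ (g w)) * jb w := by
    refine i0.mono' ((hg.cont.measurable.sub m1).mul jb_cont.measurable).aestronglyMeasurable
      (Eventually.of_forall fun w => ?_)
    have h2 : 0 ≤ g w - chi R w * bet C₀ (g w) := by linarith [l1 w]
    have h3 : g w - chi R w * bet C₀ (g w) ≤ g w := by linarith [p1 w]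
    rw [Real.norm_of_nonneg (mul_nonneg h2 (jb_pos w).le)]
    exact mul_le_mul_of_nonneg_right h3 (jb_pos w).le
  calc ∫ w, (v e - w e) * PhS e a v w * (g w - chi R w * bet C₀ (g w))
      ≤ ∫ w, 2 * jb v ^ (1 + a) * ((g w - chi R w * bet C₀ (g w)) * jb w) := by
        refine integral_mono_of_nonneg (Eventually.of_forall fun w => ?_) (i1.const_mul _)
          (Eventually.of_forall fun w => ?_)
        · exact mul_nonneg (Pool.Agent.H82.DG.VPhS_nonneg e a v w) (by linarith [l1 w])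
        · have h2 : 0 ≤ g w - chi R w * bet C₀ (g w) := by linarith [l1 w]
          have h3 := (Pool.Agent.H82.DG.VPhS_le_len e a v w).trans
            (HcS_up (by linarith : 0 ≤ 1 + a) (by linarith) v w)
          calc (v e - w e) * PhS e a v w * (g w - chi R w * bet C₀ (g w))
              ≤ 2 * jb v ^ (1 + a) * jb w * (g w - chi R w * bet C₀ (g w)) :=
                mul_le_mul_of_nonneg_right h3 h2
            _ = _ := by ring
    _ = 2 * jb v ^ (1 + a) * ∫ w, (g w - chi R w * bet C₀ (g w)) * jb w := integral_const_mul _ _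
    _ ≤ 2 * jb v ^ (1 + a) * ε := mul_le_mul_of_nonneg_left hs jv

/-- the collision operator is not positive at a high touching point -/
private theorem HcS_slice {a C Ca cb : ℝ} (HL : HypL d (1 + a) s b C Ca cb) (ha : -1 ≤ a) (ha0 : a < 0)
    (hs1 : 2 * s < 1) {p : ℕ} (hp : (d : ℝ) + (1 + a) + 4 ≤ 2 * p) (e : Fin d) (M : ℝ) {m₀ : ℝ}
    (hm : 0 < m₀) :
    ∃ N₁ : ℝ, 0 < N₁ ∧ ∀ F G : Vec d → Vec d → ℝ, FS e F G → GB M F → m₀ ≤ ∫ p, F p.2 p.1 ∂(nu d) →
      (∀ x y v, F x v = F y v) → (∀ x, Nice (F x)) → ∀ x v, N₁ ≤ F x v * (1 + nsq v) ^ p →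
      (∀ u, F x u * (1 + nsq u) ^ p ≤ F x v * (1 + nsq v) ^ p) → boltzQ (1 + a) b (F x) v ≤ 0 := by
  obtain ⟨K₀, κ, δ₁, hK₀, hκ, hδ₁, hδ₁1, hop⟩ := Pool.Agent.H85.DG.op_d HL ha ha0 hs1 hp e
  obtain ⟨R₂, C₂, hR₂, hC₂, hmass⟩ := Pool.Agent.H48.PV.mass_gb (d := d) M hm
  obtain ⟨δ, hδ, hslab⟩ := Pool.Agent.H48.PV.slab_gb (d := d) M hR₂ (show (0 : ℝ) < m₀ / 4 by positivity)
  have hR₂0 : 0 < R₂ := by linarith
  have hC₂0 : 0 < C₂ := by linarith
  obtain ⟨c, hc⟩ : ∃ c : ℝ, c = min (1 / 2) (δ / (4 * R₂)) ^ (1 + a) := ⟨_, rfl⟩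
  have hc0 : 0 < c := by
    rw [hc]
    exact Real.rpow_pos_of_pos (lt_min (by norm_num) (by positivity)) _
  obtain ⟨ε, hε, hεd⟩ : ∃ ε : ℝ, 0 < ε ∧ K₀ * (2 * ε) ≤ κ * (c * (m₀ / 4)) := by
    refine ⟨κ * (c * (m₀ / 4)) / (2 * K₀ + 1), by positivity, ?_⟩
    have h1 : K₀ * (2 * (κ * (c * (m₀ / 4)) / (2 * K₀ + 1))) =
        (2 * K₀ / (2 * K₀ + 1)) * (κ * (c * (m₀ / 4))) := by ring
    have h2 : 2 * K₀ / (2 * K₀ + 1) ≤ 1 := (div_le_one (by linarith)).2 (by linarith)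
    rw [h1]
    have h3 : 0 ≤ κ * (c * (m₀ / 4)) := by positivity
    nlinarith
  obtain ⟨R₀, hR₀, hgb⟩ := Pool.Agent.H48.PG.gb_small (d := d) (a := 0) M le_rfl zero_lt_one hε
  obtain ⟨C₁, hC₁, hgb⟩ := hgb (max R₀ R₂) (le_max_left _ _)
  have hgb := hgb (max C₁ C₂) (le_max_left _ _)
  have hR1 : 1 ≤ max R₀ R₂ := hR₀.trans (le_max_left _ _)
  have hC0 : 0 < max C₁ C₂ := lt_of_lt_of_le hC₂0 (le_max_right _ _)
  obtain ⟨N₁, hN₁, hop⟩ := hop (max C₁ C₂) (2 * max R₀ R₂) hC0 (by linarith)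
  refine ⟨N₁, hN₁, fun F G hF hG hmF hom hN x v hhigh htch => ?_⟩
  have hg := hN x
  have hg0 : ∀ u, 0 ≤ F x u := fun u => hF.nonneg x u
  obtain ⟨m1, p1, l1, c1, z1⟩ := HcS_g1 hg hg0 hR1 hC0
  have hT : TouchS δ₁ 1 p (F x) v := by
    refine ⟨fun _ => 0, measurable_const, fun u => ?_, fun u => ?_, fun m _ k hk => ?_⟩
    · simpa using htch u
    · simpa using hδ₁.le
    · simp only [mul_zero, integral_zero]
      exact mul_nonneg hδ₁.le (integral_nonneg fun σ => mul_nonneg (hk.nonneg _) (mm_nonneg _ _ _))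
  have h1 := hop (F x) (fun u => chi (max R₀ R₂) u * bet (max C₁ C₂) (F x u)) hg hg0 m1 p1 l1 c1 z1 v
    hT hhigh
  -- the gain
  have e1 : ∫ w, (F x w - chi (max R₀ R₂) w * bet (max C₁ C₂) (F x w)) * jb w ≤ ε := by
    have h2 := hgb e F G hF hG
    rw [← HcS_nu]
    refine le_trans (le_of_eq ?_) h2
    refine integral_congr_ae (Eventually.of_forall fun q => ?_)
    simp only [add_zero, Real.rpow_one]
    unfold Pool.Agent.H48.PV.gb
    rw [hom q.2 x]
  have h3 := HcS_gain ha ha0 hg hg0 hR1 hC0 e v e1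
  -- the loss
  have e2 : m₀ / 2 ≤ ∫ w, chi R₂ w * bet C₂ (F x w) := by
    refine (hmass e F G hF hG hmF).trans (le_of_eq ?_)
    rw [← HcS_nu]
    refine integral_congr_ae (Eventually.of_forall fun q => ?_)
    simp only
    unfold Pool.Agent.H48.PV.gb
    rw [hom q.2 x]
  have hS : MeasurableSet {w : Vec d | |w e - v e| < δ} := by
    have h3 : Continuous fun w : Vec d => |w e - v e| := by fun_prop
    have h4 : Measurable fun w : Vec d => |w e - v e| := h3.measurable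
    exact h4 measurableSet_Iio
  have e3 : ∫ w in {w : Vec d | |w e - v e| < δ}, chi R₂ w * bet C₂ (F x w) ≤ m₀ / 4 := by
    refine le_trans (le_of_eq ?_) (hslab C₂ hC₂0 e F G hF hG (v e))
    rw [← HcS_nuS _ hS]
    refine integral_congr_ae (Eventually.of_forall fun q => ?_)
    simp only
    unfold Pool.Agent.H48.PV.gb
    rw [hom q.2 x]
  have h4 := HcS_low (by linarith : 0 ≤ 1 + a) (by linarith) HL.H.hd hg hg0 hR₂ hC₂0
    (le_max_right R₀ R₂) (le_max_right C₁ C₂) hδ e v e2 e3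
  rw [← hc] at h4
  refine h1.trans (mul_nonpos_of_nonneg_of_nonpos (hg0 v) ?_)
  have jv : 0 ≤ jb v ^ (1 + a) := Real.rpow_nonneg (jb_pos v).le _
  have h5 := mul_le_mul_of_nonneg_left h3 hK₀
  have h6 := mul_le_mul_of_nonneg_left h4 hκ.le
  have h7 := mul_le_mul_of_nonneg_right hεd jv
  nlinarith

/-- the mass is positive -/
private lemma HcS_mass {F₀ : Vec d → Vec d → ℝ} (hom : ∀ x y v, F₀ x v = F₀ y v) (x : Vec d) :
    ∫ q, F₀ q.2 q.1 ∂(nu d) = ∫ v, F₀ x v := by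
  rw [← HcS_nu]
  refine integral_congr_ae (Eventually.of_forall fun q => ?_)
  simp only
  rw [hom q.2 x]

private lemma HcS_dec {F₀ : Vec d → Vec d → ℝ} (hF : Slice F₀) (p : ℕ) :
    ∃ A : ℝ, ∀ x v, F₀ x v * (1 + nsq v) ^ p ≤ A := by
  obtain ⟨C, hC⟩ := hF.decay (2 * p)
  refine ⟨((d : ℝ) + 1) ^ p * C, fun x v => ?_⟩
  have h1 := one_add_sq_le v
  have h2 : 0 ≤ 1 + nsq v := by linarith [sq_nonneg' v]
  calc F₀ x v * (1 + nsq v) ^ p ≤ F₀ x v * (((d : ℝ) + 1) * (1 + ‖v‖) ^ 2) ^ p :=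
        mul_le_mul_of_nonneg_left (pow_le_pow_left₀ h2 h1 p) (hF.nonneg x v)
    _ = ((d : ℝ) + 1) ^ p * ((1 + ‖v‖) ^ (2 * p) * F₀ x v) := by rw [mul_pow, ← pow_mul]; ring
    _ ≤ _ := mul_le_mul_of_nonneg_left (hC x v) (by positivity)

end Aux

section ReAcopy

private theorem HcS_pg {F : Vec d → Vec d → ℝ} (hF : Slice F) {h : Vec d → ℝ} (hh : PG h) :
    ∃ D : ℝ, ∀ x v, |F x v * h v| ≤ D * wt d v := by
  obtain ⟨N, P, hP0, hP⟩ := hh.pos
  obtain ⟨D, hD⟩ := hF.decay (N + (d + 1))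
  refine ⟨P * D, fun x v => ?_⟩
  have hn := hF.nonneg x v
  have h1 : |h v| ≤ P * (1 + ‖v‖) ^ N := hP v
  have hw : 0 < (1 + ‖v‖) ^ (d + 1) := pow_pos (w_pos v) _
  have h2 : (1 + ‖v‖) ^ N * F x v ≤ D * wt d v := by
    unfold wt
    rw [← div_eq_mul_inv, le_div_iff₀ hw]
    have := hD x v
    rw [pow_add] at this
    linarith
  rw [abs_mul, abs_of_nonneg hn]
  calc F x v * |h v| ≤ F x v * (P * (1 + ‖v‖) ^ N) := mul_le_mul_of_nonneg_left h1 hn
    _ = P * ((1 + ‖v‖) ^ N * F x v) := by ring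
    _ ≤ P * (D * wt d v) := mul_le_mul_of_nonneg_left h2 hP0
    _ = P * D * wt d v := by ring

private theorem HcS_cont {F : Vec d → Vec d → ℝ} (hF : Slice F) :
    Continuous fun q : Vec d × Vec d => F q.2 q.1 :=
  hF.cont.comp (by fun_prop : Continuous fun q : Vec d × Vec d => (q.2, q.1))

private theorem HcS_int {F : Vec d → Vec d → ℝ} (hF : Slice F) {h : Vec d → ℝ} (hh : PG h)
    (hc : Continuous h) : Integrable (fun q : Vec d × Vec d => F q.2 q.1 * h q.1) (nu d) := by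
  obtain ⟨D, hD⟩ := HcS_pg hF hh
  exact integrable_nu ((HcS_cont hF).mul (hc.comp continuous_fst)).aestronglyMeasurable
    fun q => hD q.2 q.1

private theorem HcS_abs {a : ℝ} (ha : 0 ≤ a) : |a * Real.log a| ≤ a ^ 2 + 2 * √a := by
  rcases ha.eq_or_lt with h0 | h0
  · rw [← h0]
    simp
  · rw [abs_mul, abs_of_pos h0]
    rcases le_total 1 a with h | h
    · rw [abs_of_nonneg (Real.log_nonneg h)]
      have h1 := mul_le_mul_of_nonneg_left (Real.log_le_self ha) ha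
      have h2 := Real.sqrt_nonneg a
      nlinarith
    · rw [abs_of_nonpos (Real.log_nonpos ha h)]
      have hr : 0 < √a := Real.sqrt_pos.2 h0
      have h1 : Real.log (√a)⁻¹ ≤ (√a)⁻¹ - 1 := Real.log_le_sub_one_of_pos (inv_pos.2 hr)
      rw [Real.log_inv, Real.log_sqrt ha] at h1
      have h2 : -Real.log a ≤ 2 * (√a)⁻¹ := by linarith
      have h3 : a * (√a)⁻¹ = √a := by
        nth_rw 1 [← Real.mul_self_sqrt ha]
        rw [mul_assoc, mul_inv_cancel₀ hr.ne', mul_one]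
      calc a * -Real.log a ≤ a * (2 * (√a)⁻¹) := mul_le_mul_of_nonneg_left h2 ha
        _ = 2 * (a * (√a)⁻¹) := by ring
        _ = 2 * √a := by rw [h3]
        _ ≤ a ^ 2 + 2 * √a := by nlinarith [sq_nonneg a]

private theorem HcS_wt_le (v : Vec d) : wt d v ≤ 1 := by
  unfold wt
  exact inv_le_one_of_one_le₀ (one_le_pow₀ (one_le_w v))

private theorem HcS_ent {F : Vec d → Vec d → ℝ} (hF : Slice F) :
    Integrable (fun q : Vec d × Vec d => F q.2 q.1 * Real.log (F q.2 q.1)) (nu d) := by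
  obtain ⟨D, hD⟩ := hF.decay (2 * (d + 1))
  have hD0 : 0 ≤ D := by
    have h1 := hD 0 0
    have h2 : 0 ≤ (1 + ‖(0 : Vec d)‖) ^ (2 * (d + 1)) * F 0 0 :=
      mul_nonneg (pow_nonneg (w_pos _).le _) (hF.nonneg 0 0)
    linarith
  refine integrable_nu (C := D ^ 2 + 2 * √D) ?_ fun q => ?_
  · exact (Real.continuous_mul_log.comp (HcS_cont hF)).aestronglyMeasurable
  · have h0 := hF.nonneg q.2 q.1
    have hw0 := wt_nonneg (d := d) q.1
    have hw1 := HcS_wt_le (d := d) q.1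
    have h2 : F q.2 q.1 ≤ D * wt d q.1 ^ 2 := by
      have hp : 0 < (1 + ‖q.1‖) ^ (2 * (d + 1)) := pow_pos (w_pos _) _
      have e : wt d q.1 ^ 2 = ((1 + ‖q.1‖) ^ (2 * (d + 1)))⁻¹ := by
        unfold wt
        rw [mul_comm 2, pow_mul, inv_pow]
      rw [e, ← div_eq_mul_inv, le_div_iff₀ hp]
      have := hD q.2 q.1
      linarith
    have hw2 : wt d q.1 ^ 2 ≤ wt d q.1 := by nlinarith
    have h3 : F q.2 q.1 ≤ D * wt d q.1 := h2.trans (mul_le_mul_of_nonneg_left hw2 hD0)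
    have h4 : F q.2 q.1 ^ 2 ≤ D ^ 2 * wt d q.1 := by
      have h5 : F q.2 q.1 ^ 2 ≤ (D * wt d q.1) ^ 2 := pow_le_pow_left₀ h0 h3 2
      rw [mul_pow] at h5
      exact h5.trans (mul_le_mul_of_nonneg_left hw2 (by positivity))
    have h6 : √(F q.2 q.1) ≤ √D * wt d q.1 := by
      refine (Real.sqrt_le_sqrt h2).trans (le_of_eq ?_)
      rw [Real.sqrt_mul hD0, Real.sqrt_sq hw0]
    have h7 := HcS_abs h0
    have h8 : (D ^ 2 + 2 * √D) * wt d q.1 = D ^ 2 * wt d q.1 + 2 * (√D * wt d q.1) := by ring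
    rw [h8]
    linarith


end ReAcopy

/-- the slices are rotations of each other -/
def RotS (F : Vec d → Vec d → ℝ) : Prop :=
  ∀ x y : Vec d, ∃ A : Vec d ≃ₗ[ℝ] Vec d, (∀ z, nsq (A z) = nsq z) ∧ ∀ v, F y (A v) = F x v

/-- averages of functions invariant under rotations -/
private theorem HcS_avg {F : Vec d → Vec d → ℝ} (h : RotS F) (φ : ℝ → ℝ → ℝ)
    (hi : Integrable (fun q : Vec d × Vec d => φ (nsq q.1) (F q.2 q.1)) (nu d)) (x : Vec d) :
    ∫ q, φ (nsq q.1) (F q.2 q.1) ∂(nu d) = ∫ v, φ (nsq v) (F x v) := by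
  rw [Pool.Agent.H15.AV.nu_integral hi]
  have e : ∀ y : Vec d, ∫ v, φ (nsq v) (F y v) = ∫ v, φ (nsq v) (F x v) := by
    intro y
    obtain ⟨A, h1, h2⟩ := h x y
    rw [← int_iso h1 (fun v => φ (nsq v) (F y v))]
    refine integral_congr_ae (Eventually.of_forall fun v => ?_)
    simp only
    rw [h1, h2]
  simp only [e]
  rw [integral_const]
  simp [Measure.real, muD_univ]

/-- the mass density does not depend on `x` -/
theorem hel_mass {F : Vec d → Vec d → ℝ} (hF : Slice F) (h : RotS F) (x : Vec d) :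
    ∫ q, F q.2 q.1 ∂(nu d) = ∫ v, F x v := by
  have hi := HcS_int hF (PG.const (1 : ℝ)) continuous_const
  simp only [mul_one] at hi
  exact HcS_avg h (fun _ a => a) hi x

/-- the hydrodynamic quantities of one slice -/
private theorem HcS_gb {F : Vec d → Vec d → ℝ} (hF : Slice F) (h : RotS F) {M : ℝ} (hM : GB M F) (x : Vec d) :
    GB M (fun _ : Vec d => F x) := by
  refine ⟨?_, ?_, ?_⟩
  · have h1 := hel_mass hF h x
    have h2 : ∫ q : Vec d × Vec d, F x q.1 ∂(nu d) = ∫ v, F x v := HcS_nu (F x)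
    rw [h2, ← h1]
    exact hM.mass
  · have h1 := HcS_avg h (fun r a => a * r) (HcS_int hF (h := fun v => nsq v) PG.nsq continuous_sq) x
    have h2 : ∫ q : Vec d × Vec d, F x q.1 * nsq q.1 ∂(nu d) = ∫ v, F x v * nsq v :=
      HcS_nu (fun v => F x v * nsq v)
    rw [h2, ← h1]
    exact hM.energy
  · have h1 := HcS_avg h (fun _ a => a * Real.log a) (HcS_ent hF) x
    have h2 : ∫ q : Vec d × Vec d, F x q.1 * Real.log (F x q.1) ∂(nu d) =
        ∫ v, F x v * Real.log (F x v) := HcS_nu (fun v => F x v * Real.log (F x v))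
    rw [h2, ← h1]
    exact hM.entropy

/-- one slice as a function independent of `x` -/
private theorem HcS_fs {T : ℝ} {f : ℝ → Vec d → Vec d → ℝ} (hf : IsBoltzmannSol γ b T f) (e : Fin d)
    {t : ℝ} (ht : t ∈ Ioo 0 T) (x : Vec d) :
    FS e (fun _ => f t x) (fun _ => boltzQ γ b (f t x)) := by
  have ht' : t ∈ Ico 0 T := ⟨ht.1.le, ht.2⟩
  refine ⟨fun _ v => hf.nonneg t ht' x v, fun _ _ _ => rfl, fun _ _ _ => rfl, fun _ _ _ _ => rfl,
    fun _ _ _ _ => rfl, ?_, ?_, ?_, ?_⟩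
  · exact (IsClassicalSol.cont_slice hf ht').comp
      (by fun_prop : Continuous fun p : Vec d × Vec d => (x, p.2))
  · exact (IsClassicalSol.cont_Q hf ht).comp
      (by fun_prop : Continuous fun p : Vec d × Vec d => (x, p.2))
  · intro N
    obtain ⟨C, hC⟩ := hf.decay t ht.2 N
    refine ⟨C, fun _ v => ?_⟩
    rw [abs_of_nonneg (hf.nonneg t ht' x v)]
    exact hC t ⟨ht.1.le, le_rfl⟩ x v
  · intro N
    obtain ⟨C, -, hC⟩ := IsClassicalSol.Q_le hf ht.1 ht.2 N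
    refine ⟨C, fun _ v => ?_⟩
    have h1 := hC t ⟨le_rfl, le_rfl⟩ x v
    have h2 : 0 < (1 + ‖v‖) ^ N := pow_pos (w_pos v) N
    rw [← div_eq_mul_inv, le_div_iff₀ h2, mul_comm] at h1
    exact h1

theorem hel_sup (hd : 2 ≤ d) (hs : 0 < s) (h0 : 0 ≤ γ) (h1 : γ < 1) (hs1 : 2 * s < 1)
    (hb : IsKernel d s b) {F₀ : Vec d → Vec d → ℝ} (hF : Slice F₀)
    (hpos : ∀ x, 0 < ∫ v, F₀ x v) {p : ℕ} (hp : (d : ℝ) + γ + 4 ≤ 2 * p) :
    ∃ A : ℝ, ∀ (T : ℝ) (f : ℝ → Vec d → Vec d → ℝ), IsBoltzmannSol γ b T f →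
      (∀ t ∈ Ico 0 T, RotS (f t)) → f 0 = F₀ →
      ∀ t ∈ Ico 0 T, ∀ x v, f t x v * (1 + nsq v) ^ p ≤ A := by
  by_cases hrot : RotS F₀
  swap
  · refine ⟨0, fun T f hf hh hf0 t ht x v => ?_⟩
    have := hh 0 ⟨le_rfl, ht.1.trans_lt ht.2⟩
    rw [hf0] at this
    exact absurd this hrot
  obtain ⟨a, rfl⟩ : ∃ a : ℝ, γ = 1 + a := ⟨γ - 1, by ring⟩
  have ha : -1 ≤ a := by linarith
  have ha0 : a < 0 := by linarith
  obtain ⟨C, Ca, cb, HL⟩ := exists_hypL (γ := 1 + a) hd hs (by linarith) (by linarith) (by linarith) hb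
  obtain ⟨e, -⟩ : ∃ e : Fin d, e = ⟨0, by omega⟩ := ⟨_, rfl⟩
  obtain ⟨m₀, hm₀⟩ : ∃ m₀ : ℝ, m₀ = ∫ q, F₀ q.2 q.1 ∂(nu d) := ⟨_, rfl⟩
  have hm : 0 < m₀ := by
    rw [hm₀, hel_mass hF hrot 0]
    exact hpos 0
  obtain ⟨M, hM⟩ : ∃ M : ℝ, GB M F₀ :=
    ⟨max (∫ q, F₀ q.2 q.1 ∂(nu d)) (max (∫ q, F₀ q.2 q.1 * nsq q.1 ∂(nu d))
      (∫ q, F₀ q.2 q.1 * Real.log (F₀ q.2 q.1) ∂(nu d))),
      ⟨le_max_left _ _, (le_max_left _ _).trans (le_max_right _ _),
        (le_max_right _ _).trans (le_max_right _ _)⟩⟩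
  obtain ⟨N₁, hN₁, hsl⟩ := HcS_slice HL ha ha0 hs1 hp e M hm
  obtain ⟨A, hA⟩ := HcS_dec hF p
  refine ⟨max N₁ A, fun T f hf hh hf0 => ?_⟩
  have hf' : IsClassicalSol T (fun t x => boltzQ (1 + a) b (f t x)) f := hf
  have hI := boltz_HasInvariants HL.H hf
  have h3 := Pool.Agent.H48.PI.max_high (E := fun _ _ _ => 0) (DE := fun _ _ _ => 0) (m := fun _ => 0) (A₁ := N₁) hf' p
    (by
      have : ContinuousOn (fun _ : ℝ × Vec d × Vec d => (0 : ℝ)) (Ico 0 T ×ˢ univ) := continuousOn_const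
      exact this)
    (fun _ _ _ _ _ => rfl) (fun T₁ _ => ⟨0, fun t _ x v => by simp⟩)
    (fun t _ x v => hasDerivAt_const _ _) integrableOn_zero (fun _ _ => le_rfl)
    (fun t ht x v h1 h2 => by
      simp only [neg_zero, Real.exp_zero, mul_one] at h1 h2
      have ht' : t ∈ Ico 0 T := ⟨ht.1.le, ht.2⟩
      have hGB := HcS_gb (sol_slice hf ht') (hh t ht')
        (glob_bounds HL.H hf (by rw [hf0]; exact hM) ht') x
      have hmm : m₀ ≤ ∫ q : Vec d × Vec d, f t x q.1 ∂(nu d) := by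
        have k1 : ∫ q : Vec d × Vec d, f t x q.1 ∂(nu d) = ∫ v, f t x v := HcS_nu (f t x)
        rw [k1, ← hel_mass (sol_slice hf ht') (hh t ht') x,
          Pool.Agent.H15.AV.mass_const (Q := boltzQ (1 + a) b) hf hI ht', hf0, hm₀]
      have h4 := hsl (fun _ => f t x) _ (HcS_fs hf e ht x) hGB hmm (fun _ _ _ => rfl)
        (fun _ => IsClassicalSol.nice hf' ht x) x v h1 h2
      simpa using h4)
    (le_max_left N₁ A)
    (fun x v => by
      simp only [neg_zero, Real.exp_zero, mul_one]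
      rw [hf0]
      exact (hA x v).trans (le_max_right _ _))
  intro t ht x v
  simpa using h3 t ht x v

end Pool.Agent.H15.HC
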